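import Pool.Agent.W707.HM.Stm

set_option autoImplicit false

namespace Pool.Agent.W298.HM.Hi

open Matrix Set Filter Topology Pool.Agent.W707.HM
open Pool.Agent.W360.MQ (cab RankOneConvex)

abbrev M2 := Matrix (Fin 2) (Fin 2) ℝ

theorem rank_eq_one_of_det {H : M2} (h0 : H ≠ 0) (hd : H.det = 0) : H.rank = 1 := by
  have h1 : H.rank ≠ 0 := by
    intro h
    apply h0
    rw [Matrix.rank, Submodule.finrank_eq_zero, LinearMap.range_eq_bot] at h
    ext i j
    have := congrArg (fun L : (Fin 2 → ℝ) →ₗ[ℝ] (Fin 2 → ℝ) => L (Pi.single j 1) i) h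
    simpa using this
  have h2 : H.rank ≤ 1 := by
    rw [det_fin_two] at hd
    by_cases ha : H 0 0 = 0
    · by_cases hb : H 0 1 = 0
      · have : H = vecMulVec ![0, 1] ![H 1 0, H 1 1] := by
          ext i j; fin_cases i <;> fin_cases j <;> simp [vecMulVec_apply, ha, hb]
        rw [this]; exact rank_vecMulVec_le _ _
      · have hc : H 1 0 = 0 := by
          have : H 0 1 * H 1 0 = 0 := by rw [ha] at hd; linarith
          rcases mul_eq_zero.1 this with h | h
          · exact absurd h hb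
          · exact h
        have : H = vecMulVec ![1, H 1 1 / H 0 1] ![0, H 0 1] := by
          ext i j; fin_cases i <;> fin_cases j <;> simp [vecMulVec_apply, ha, hb, hc]
        rw [this]; exact rank_vecMulVec_le _ _
    · have : H = vecMulVec ![1, H 1 0 / H 0 0] ![H 0 0, H 0 1] := by
        ext i j; fin_cases i <;> fin_cases j <;> simp [vecMulVec_apply, ha]
        field_simp
        linarith
      rw [this]; exact rank_vecMulVec_le _ _
  omega

theorem seg {W : M2 → ℝ} (hW : RankOneConvex W) (F H : M2) (hd : H.det = 0) {t : ℝ}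
    (h0 : 0 ≤ t) (h1 : t ≤ 1) : W (F + t • H) ≤ (1 - t) * W F + t * W (F + H) := by
  by_cases hH : H = 0
  · subst hH
    simp only [smul_zero, add_zero]
    linarith
  · have h := hW F H (rank_eq_one_of_det hH hd) t h0 h1
    have e : (1 - t) • F + t • (F + H) = F + t • H := by
      rw [smul_add, sub_smul, one_smul]; abel
    rwa [e] at h

/-- the value of `Wm` at symmetric matrices with nonnegative trace -/
theorem Wm_sym (p : ℝ) (f : ℝ → ℝ) (a b d : ℝ) (hT : 0 ≤ a + d) :
    Wm p f !![a, b; b, d] =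
      (((a + d) + Real.sqrt ((a - d) ^ 2 + 4 * b ^ 2)) / 2) ^ p *
        f ((((a + d) - Real.sqrt ((a - d) ^ 2 + 4 * b ^ 2)) / 2) /
          (((a + d) + Real.sqrt ((a - d) ^ 2 + 4 * b ^ 2)) / 2)) := by
  have h1 : ‖(cab !![a, b; b, d]).1‖ = (a + d) / 2 := by
    have : (cab !![a, b; b, d]).1 = (((a + d) / 2 : ℝ) : ℂ) := by
      simp [cab]
    rw [this, Complex.norm_real, Real.norm_eq_abs, abs_of_nonneg (by linarith)]
  have h2 : ‖(cab !![a, b; b, d]).2‖ = Real.sqrt ((a - d) ^ 2 + 4 * b ^ 2) / 2 := by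
    have : (cab !![a, b; b, d]).2 = (((a - d) / 2 : ℝ) : ℂ) + ((b : ℝ) : ℂ) * Complex.I := by
      simp [cab]
      ring
    rw [this, Complex.norm_add_mul_I]
    have e : Real.sqrt ((a - d) ^ 2 + 4 * b ^ 2) = 2 * Real.sqrt (((a - d) / 2) ^ 2 + b ^ 2) := by
      have : (a - d) ^ 2 + 4 * b ^ 2 = 2 ^ 2 * (((a - d) / 2) ^ 2 + b ^ 2) := by ring
      rw [this, Real.sqrt_mul (by norm_num), Real.sqrt_sq (by norm_num)]
    rw [e]
    ring
  unfold Wm wh
  rw [h1, h2]
  have e1 : (a + d) / 2 + Real.sqrt ((a - d) ^ 2 + 4 * b ^ 2) / 2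
      = ((a + d) + Real.sqrt ((a - d) ^ 2 + 4 * b ^ 2)) / 2 := by ring
  have e2 : (a + d) / 2 - Real.sqrt ((a - d) ^ 2 + 4 * b ^ 2) / 2
      = ((a + d) - Real.sqrt ((a - d) ^ 2 + 4 * b ^ 2)) / 2 := by ring
  rw [e1, e2]

theorem exists_a (t s v : ℝ) (_ht : t < 1) (_hs : 0 < s) (hv : |v| ≤ s)
    (h1 : 0 ≤ (s - 1) * (v - t)) (hts : t ≤ s) (hv1 : v ≤ 1) :
    ∃ a : ℝ, 0 ≤ (1 - a) * (a - t) ∧ a * (s - v) = s * (1 + t) - t - s * v := by
  by_cases hsv : s = v
  · refine ⟨1, by simp, ?_⟩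
    subst hsv
    nlinarith
  · have hpos : 0 < s - v := by
      have := (abs_le.1 hv).2
      rcases lt_or_eq_of_le this with h | h
      · linarith
      · exact absurd h.symm hsv
    refine ⟨(s * (1 + t) - t - s * v) / (s - v), ?_, by field_simp⟩
    have e1 : 1 - (s * (1 + t) - t - s * v) / (s - v) = (s - 1) * (v - t) / (s - v) := by
      field_simp; ring
    have e2 : (s * (1 + t) - t - s * v) / (s - v) - t = (s - t) * (1 - v) / (s - v) := by
      field_simp; ring
    rw [e1, e2]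
    have h2 : 0 ≤ (s - t) * (1 - v) := mul_nonneg (by linarith) (by linarith)
    positivity

theorem main : S_HI := by
  intro p f hp hW t m ht hSG s v hs hv h1 hts hv1
  obtain ⟨htI, hSG⟩ := hSG
  have htm : -1 ≤ t := htI.1
  have h1t : 0 < 1 - t := by linarith
  have hvl := (abs_le.1 hv).1
  have hvu := (abs_le.1 hv).2
  obtain ⟨a, ha, haeq⟩ := exists_a t s v ht hs hv h1 hts hv1
  set b := Real.sqrt ((1 - a) * (a - t)) with hb
  have hb2 : b ^ 2 = (1 - a) * (a - t) := Real.sq_sqrt ha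
  set d := 1 + t - a with hd
  -- the segment
  have hdet : (!![s - a, -b; -b, v - d] : M2).det = 0 := by
    rw [Matrix.det_fin_two_of, hd]
    nlinarith
  set T' := s + v - (1 + t) with hT'
  set d' := s * v - t with hd'
  set T : ℝ → ℝ := fun x => 1 + t + x * T' with hTdef
  set R : ℝ → ℝ := fun x => Real.sqrt ((T x) ^ 2 - 4 * (t + x * d')) with hR
  set S : ℝ → ℝ := fun x => (T x + R x) / 2 with hS
  set U : ℝ → ℝ := fun x => (T x - R x) / 2 with hU
  have hTnn : ∀ x ∈ Icc (0:ℝ) 1, 0 ≤ T x := by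
    intro x hx
    have e : T x = (1 - x) * (1 + t) + x * (s + v) := by
      rw [hTdef, hT']; ring
    rw [e]
    exact add_nonneg (mul_nonneg (by linarith [hx.2]) (by linarith))
      (mul_nonneg hx.1 (by linarith))
  -- the values on the segment
  have hval : ∀ x ∈ Icc (0:ℝ) 1,
      Wm p f (!![a, b; b, d] + x • !![s - a, -b; -b, v - d]) = (S x) ^ p * f (U x / S x) := by
    intro x hx
    have e0 : (!![a, b; b, d] + x • !![s - a, -b; -b, v - d] : M2) =
        !![a + x * (s - a), b - x * b; b - x * b, d + x * (v - d)] := by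
      ext i j
      fin_cases i <;> fin_cases j <;> simp <;> ring
    have eT : (a + x * (s - a)) + (d + x * (v - d)) = T x := by
      rw [hTdef, hT', hd]; ring
    have eR : ((a + x * (s - a)) - (d + x * (v - d))) ^ 2 + 4 * (b - x * b) ^ 2
        = (T x) ^ 2 - 4 * (t + x * d') := by
      have : 4 * (b - x * b) ^ 2 = 4 * (1 - x) ^ 2 * ((1 - a) * (a - t)) := by
        rw [← hb2]; ring
      rw [this, hTdef, hT', hd', hd]
      have h2 : a * (s - v) * (x * (1 - x)) = (s * (1 + t) - t - s * v) * (x * (1 - x)) := by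
        rw [haeq]
      nlinarith
    rw [e0, Wm_sym p f _ _ _ (by rw [eT]; exact hTnn x hx), eT, eR]
  have hT0 : T 0 = 1 + t := by rw [hTdef]; simp
  have hR0 : R 0 = 1 - t := by
    rw [hR]
    simp only
    rw [hT0]
    have : (1 + t) ^ 2 - 4 * (t + 0 * d') = (1 - t) ^ 2 := by ring
    rw [this, Real.sqrt_sq h1t.le]
  have hS0 : S 0 = 1 := by
    rw [hS]; simp only; rw [hT0, hR0]; ring
  have hU0 : U 0 = t := by
    rw [hU]; simp only; rw [hT0, hR0]; ring
  have hR1 : R 1 = s - v := by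
    rw [hR, hTdef]
    simp only
    have : (1 + t + 1 * T') ^ 2 - 4 * (t + 1 * d') = (s - v) ^ 2 := by
      rw [hT', hd']; ring
    rw [this, Real.sqrt_sq (by linarith)]
  have hT1 : T 1 = s + v := by rw [hTdef, hT']; ring
  have hS1 : S 1 = s := by rw [hS]; simp only; rw [hT1, hR1]; ring
  have hU1 : U 1 = v := by rw [hU]; simp only; rw [hT1, hR1]; ring
  have hconv : ∀ x ∈ Icc (0:ℝ) 1,
      (S x) ^ p * f (U x / S x) ≤ (1 - x) * f t + x * (s ^ p * f (v / s)) := by
    intro x hx
    have h2 := seg hW !![a, b; b, d] !![s - a, -b; -b, v - d] hdet hx.1 hx.2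
    have v0 := hval 0 ⟨le_refl _, zero_le_one⟩
    have v1 := hval 1 ⟨zero_le_one, le_refl _⟩
    rw [zero_smul, add_zero, hS0, hU0, Real.one_rpow, one_mul, div_one] at v0
    rw [one_smul, hS1, hU1] at v1
    rw [hval x hx, v0, v1] at h2
    exact h2
  -- the lower bound
  set ℓ : ℝ → ℝ := fun x => (f t - m * t) * (S x) ^ p + m * ((S x) ^ (p - 1) * U x) with hℓ
  have hlow : ∀ x ∈ Icc (0:ℝ) 1, 0 < S x →
      ℓ x ≤ (1 - x) * f t + x * (s ^ p * f (v / s)) := by
    intro x hx hSx
    refine le_trans ?_ (hconv x hx)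
    have hTx := hTnn x hx
    have hRx : 0 ≤ R x := Real.sqrt_nonneg _
    have hmem : U x / S x ∈ Icc (-1 : ℝ) 1 := by
      constructor
      · rw [le_div_iff₀ hSx, hS, hU]
        simp only
        linarith
      · rw [div_le_one hSx, hS, hU]
        simp only
        linarith
    have h2 := hSG _ hmem
    have h3 : (S x) ^ p * (f t + m * (U x / S x - t)) ≤ (S x) ^ p * f (U x / S x) :=
      mul_le_mul_of_nonneg_left h2 (Real.rpow_nonneg hSx.le p)
    refine le_trans (le_of_eq ?_) h3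
    rw [hℓ]
    simp only
    have e : (S x) ^ (p - 1) = (S x) ^ p / S x := by
      rw [Real.rpow_sub hSx, Real.rpow_one]
    rw [e]
    field_simp
    ring
  -- the derivatives at `0`
  have dT : HasDerivAt T T' 0 := by
    have := ((hasDerivAt_id (0:ℝ)).mul_const T').const_add (1 + t)
    simpa [hTdef] using this
  have dR : HasDerivAt R (((1 + t) * T' - 2 * d') / (1 - t)) 0 := by
    have hin : HasDerivAt (fun x => (T x) ^ 2 - 4 * (t + x * d')) (2 * (1 + t) * T' - 4 * d') 0 := by
      have h2 := (dT.pow 2).sub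
        ((((hasDerivAt_id (0:ℝ)).mul_const d').const_add t).const_mul 4)
      refine h2.congr_deriv ?_
      rw [hT0]
      simp
    have hv0 : (T 0) ^ 2 - 4 * (t + 0 * d') = (1 - t) ^ 2 := by rw [hT0]; ring
    have h2 := hin.sqrt (by rw [hv0]; positivity)
    refine h2.congr_deriv ?_
    rw [hv0, Real.sqrt_sq h1t.le]
    field_simp
    ring
  have dS : HasDerivAt S ((T' - d') / (1 - t)) 0 := by
    have h2 := (dT.add dR).div_const 2
    refine h2.congr_deriv ?_
    field_simp
    ring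
  have dU : HasDerivAt U ((d' - t * T') / (1 - t)) 0 := by
    have h2 := (dT.sub dR).div_const 2
    refine h2.congr_deriv ?_
    field_simp
    ring
  have dSp : HasDerivAt (fun x => (S x) ^ p) (p * ((T' - d') / (1 - t))) 0 := by
    have h2 := dS.rpow_const (p := p) (Or.inl (by rw [hS0]; exact one_ne_zero))
    refine h2.congr_deriv ?_
    rw [hS0, Real.one_rpow]
    ring
  have dSp1 : HasDerivAt (fun x => (S x) ^ (p - 1)) ((p - 1) * ((T' - d') / (1 - t))) 0 := by
    have h2 := dS.rpow_const (p := p - 1) (Or.inl (by rw [hS0]; exact one_ne_zero))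
    refine h2.congr_deriv ?_
    rw [hS0, Real.one_rpow]
    ring
  have dℓ : HasDerivAt ℓ ((f t - m * t) * (p * ((T' - d') / (1 - t))) +
      m * ((p - 1) * ((T' - d') / (1 - t)) * t + (d' - t * T') / (1 - t))) 0 := by
    have h2 := (dSp.const_mul (f t - m * t)).add ((dSp1.mul dU).const_mul m)
    refine h2.congr_deriv ?_
    rw [hU0, hS0, Real.one_rpow]
    ring
  have hℓ0 : ℓ 0 = f t := by
    rw [hℓ]; simp only
    rw [hS0, hU0, Real.one_rpow, Real.one_rpow]
    ring
  set φ := s ^ p * f (v / s) with hφ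
  have dG : HasDerivAt (fun x => (1 - x) * f t + x * φ - ℓ x)
      (φ - f t - ((f t - m * t) * (p * ((T' - d') / (1 - t))) +
      m * ((p - 1) * ((T' - d') / (1 - t)) * t + (d' - t * T') / (1 - t)))) 0 := by
    have h2 := ((((hasDerivAt_id (0:ℝ)).const_sub 1).mul_const (f t)).add
      ((hasDerivAt_id (0:ℝ)).mul_const φ)).sub dℓ
    refine h2.congr_deriv ?_
    ring
  have hlim := dG.tendsto_slope_zero_right
  have hnn : 0 ≤ φ - f t - ((f t - m * t) * (p * ((T' - d') / (1 - t))) +
      m * ((p - 1) * ((T' - d') / (1 - t)) * t + (d' - t * T') / (1 - t))) := by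
    apply ge_of_tendsto hlim
    have hSpos : ∀ᶠ x in 𝓝 (0:ℝ), 0 < S x := by
      have := dS.continuousAt
      apply this.eventually (lt_mem_nhds (by rw [hS0]; exact one_pos))
    have hIoo : ∀ᶠ x in 𝓝[>] (0:ℝ), x ∈ Ioo (0:ℝ) 1 :=
      Ioo_mem_nhdsGT one_pos
    filter_upwards [hIoo, hSpos.filter_mono nhdsWithin_le_nhds] with x hx hSx
    rw [zero_add, hℓ0, smul_eq_mul]
    have h2 := hlow x ⟨hx.1.le, hx.2.le⟩ hSx
    have h3 : 0 ≤ x⁻¹ := inv_nonneg.2 hx.1.le
    apply mul_nonneg h3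
    linarith
  -- conclusion
  have hfinal : f t + (p * f t - t * m) * (s - 1) + m * (v - t)
      - (p * f t - (1 + t) * m) / (1 - t) * ((s - 1) * (v - t))
      = f t + ((f t - m * t) * (p * ((T' - d') / (1 - t))) +
      m * ((p - 1) * ((T' - d') / (1 - t)) * t + (d' - t * T') / (1 - t))) := by
    rw [hT', hd']
    field_simp
    ring
  rw [hfinal]
  linarith

end Pool.Agent.W298.HM.Hi
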