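import Pool.Agent.W707.HM.Stm

set_option autoImplicit false

namespace Pool.Agent.W298.HM.Inn

open Set Pool.Agent.W707.HM

theorem main : S_INN := by
  intro p f hp hQE hpos s v hs hs1 hv
  rcases hs.eq_or_lt with h0 | h0
  · subst h0
    have hv0 : v = 0 := abs_eq_zero.1 (le_antisymm hv (abs_nonneg v))
    subst hv0
    rw [Real.zero_rpow (by linarith)]
    nlinarith
  · have hs0 : 0 ≤ s := h0.le
    have hsne : s ≠ 0 := h0.ne'
    set t := v / s with ht
    have hvt : v = s * t := by rw [ht]; field_simp
    have habs : |t| ≤ 1 := by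
      rw [ht, abs_div, abs_of_pos h0, div_le_one h0]
      exact hv
    have ht1 := (abs_le.1 habs).1
    have ht2 := (abs_le.1 habs).2
    have hsp : 0 < s ^ p := Real.rpow_pos_of_pos h0 p
    have h1 : s ^ p * (f (-1) * (1 - p / 2 * (1 + t))) ≤ s ^ p * f t :=
      mul_le_mul_of_nonneg_left (hQE t ⟨ht1, ht2⟩) hsp.le
    refine le_trans ?_ h1
    rw [hvt]
    have hpow : (1 + (s ^ 2 - 1)) ^ (p / 2) = s ^ p := by
      rw [add_sub_cancel, ← Real.rpow_natCast, ← Real.rpow_mul hs0]
      congr 1
      push_cast
      ring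
    have hs2 : (-1 : ℝ) ≤ s ^ 2 - 1 := by nlinarith [sq_nonneg s]
    have hs2eq : s ^ (2 : ℝ) = s ^ 2 := by
      rw [← Real.rpow_natCast]; norm_num
    -- the bracket
    have key : 0 ≤ f (-1) * ((p / 2 - 1) * (1 - s ^ p) + p / 2 * t * (s ^ 2 - s ^ p)) := by
      rcases lt_or_ge 2 p with hp2 | hp2
      · have hf : 0 < f (-1) := by
          by_contra hcon
          push Not at hcon
          nlinarith
        have hle : s ^ p ≤ s ^ 2 := by
          rw [← hs2eq]
          exact Real.rpow_le_rpow_of_exponent_ge h0 hs1.le hp2.le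
        have hB : 1 + p / 2 * (s ^ 2 - 1) ≤ s ^ p := by
          rw [← hpow]
          exact one_add_mul_self_le_rpow_one_add hs2 (by linarith)
        apply mul_nonneg hf.le
        have h2 : 0 ≤ (1 + t) * (s ^ 2 - s ^ p) := mul_nonneg (by linarith) (by linarith)
        have h3 : 0 ≤ p / 2 * ((1 + t) * (s ^ 2 - s ^ p)) := mul_nonneg (by linarith) h2
        nlinarith
      · have hp2' : p ≠ 2 := by
          rintro rfl
          simp at hpos
        have hp2'' : p < 2 := lt_of_le_of_ne hp2 hp2'
        have hf : f (-1) < 0 := by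
          by_contra hcon
          push Not at hcon
          nlinarith
        have hle : s ^ 2 ≤ s ^ p := by
          rw [← hs2eq]
          exact Real.rpow_le_rpow_of_exponent_ge h0 hs1.le hp2''.le
        have hB : s ^ p ≤ 1 + p / 2 * (s ^ 2 - 1) := by
          rw [← hpow]
          exact rpow_one_add_le_one_add_mul_self hs2 (by linarith) (by linarith)
        apply mul_nonneg_of_nonpos_of_nonpos hf.le
        have h2 : (1 + t) * (s ^ 2 - s ^ p) ≤ 0 :=
          mul_nonpos_of_nonneg_of_nonpos (by linarith) (by linarith)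
        have h3 : p / 2 * ((1 + t) * (s ^ 2 - s ^ p)) ≤ 0 :=
          mul_nonpos_of_nonneg_of_nonpos (by linarith) h2
        nlinarith
    nlinarith

end Pool.Agent.W298.HM.Inn
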