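import Pool.Agent.W707.HM.Stm

set_option autoImplicit false

namespace Pool.Agent.W298.HM.Le

open Set Filter Topology Pool.Agent.W707.HM

theorem Qm_eq (p : ℝ) (f fs tau : ℝ → ℝ) (m : ℝ) (h1 : fs m = m * tau m - f (tau m))
    (h2 : tau m < 1) : Dm p fs tau m = Dt p f (tau m) m ∧ Qm p fs tau m = Qt p f (tau m) m := by
  have hne : 1 - tau m ≠ 0 := by linarith
  have e1 : Dm p fs tau m = Dt p f (tau m) m := by
    unfold Dm Dt Gm
    rw [h1]
  refine ⟨e1, ?_⟩
  unfold Qm Qt
  rw [e1]
  unfold Dt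
  field_simp
  ring

theorem main (hQLB : S_QLB) (hQPO : S_QPO) : S_LE := by
  intro p f fs tau hp hf hHI hQT hCj m1 hG ht1 hend hct R hR
  obtain ⟨hSG1, hfs1⟩ := hCj m1
  obtain ⟨hDe, hQe⟩ := Qm_eq p f fs tau m1 hfs1 ht1
  rw [hDe, hQe] at hR
  set t1 := tau m1 with ht1def
  set D1 := Dt p f t1 m1 with hD1
  set Q1 := Qt p f t1 m1 with hQ1
  have h1t : 0 < 1 - t1 := by linarith
  have hD1pos : 0 < D1 := by
    rw [← hDe]
    exact div_pos hG h1t
  have hp1 : 0 < p - 1 := by linarith
  have hq : 0 ≤ p * f t1 - 2 * t1 * m1 := by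
    rcases eq_or_lt_of_le hSG1.1.1 with h | h
    · rw [← h]
      linarith
    · exact hQT t1 m1 h ht1 hSG1
  have hQ1eq : Q1 = (p - 1) * (p * f t1 - 2 * t1 * m1) - 2 * D1 * t1 := rfl
  have hq' : 0 ≤ (p - 1) * (p * f t1 - 2 * t1 * m1) := mul_nonneg hp1.le hq
  have hQ1nn : 0 ≤ Q1 := by
    rcases le_or_gt 0 t1 with h | h
    · exact hQPO p f hp.le hHI m1 t1 hSG1 h ht1
    · rw [hQ1eq]
      nlinarith
  have hRpos : 0 < R := lt_of_le_of_lt (by positivity) hR
  -- the choice of K
  obtain ⟨K, hK0, hK1, hK2⟩ : ∃ K : ℝ, 0 ≤ K ∧ 0 < 1 + t1 * K ∧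
      1 / R < 2 * (D1 * K - K ^ 2 * Q1 / 2) := by
    rcases eq_or_lt_of_le hQ1nn with h | h
    · have ht1nn : 0 ≤ t1 := by
        by_contra hcon
        push Not at hcon
        rw [hQ1eq] at h
        nlinarith
      refine ⟨1 / (D1 * R), by positivity, by positivity, ?_⟩
      rw [← h]
      have : 2 * (D1 * (1 / (D1 * R)) - (1 / (D1 * R)) ^ 2 * 0 / 2) = 2 * (1 / R) := by
        field_simp
        ring
      rw [this]
      have : 0 < 1 / R := by positivity
      linarith
    · refine ⟨D1 / Q1, by positivity, ?_, ?_⟩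
      · rcases le_or_gt 0 t1 with h0 | h0
        · have : 0 ≤ t1 * (D1 / Q1) := by positivity
          linarith
        · have h3 : -(t1 * (D1 / Q1)) ≤ 1 / 2 := by
            rw [← mul_div_assoc, ← neg_div, div_le_iff₀ h]
            rw [hQ1eq]
            nlinarith
          linarith
      · have e : 2 * (D1 * (D1 / Q1) - (D1 / Q1) ^ 2 * Q1 / 2) = D1 ^ 2 / Q1 := by
          field_simp
          ring
        rw [e, div_lt_div_iff₀ hRpos h]
        rw [div_lt_iff₀ (by positivity)] at hR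
        linarith
  set eta := (1 - t1) / 2 with heta
  have heta0 : 0 < eta := by positivity
  set M := |m1| + |f t1| + 1 with hM
  obtain ⟨C, d0, hd0, hC⟩ := hQLB p f hp.le hHI K M eta hK0 heta0
  -- continuity
  have hmem : ∀ m, tau m ∈ Icc (-1 : ℝ) 1 := fun m => (hCj m).1.1
  have hcf : ContinuousAt (fun m => f (tau m)) m1 := by
    have h1 : ContinuousWithinAt f (Icc (-1) 1) (tau m1) := hf _ (hmem m1)
    have h2 : Tendsto tau (𝓝 m1) (𝓝[Icc (-1) 1] (tau m1)) :=
      tendsto_nhdsWithin_iff.2 ⟨hct, Eventually.of_forall hmem⟩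
    exact h1.tendsto.comp h2
  have hcD : ContinuousAt (fun m => Dt p f (tau m) m) m1 := by
    unfold Dt
    apply ContinuousAt.div
    · exact (continuousAt_const.mul ((continuousAt_id.mul hct).sub hcf)).sub
        (continuousAt_const.mul continuousAt_id)
    · exact continuousAt_const.sub hct
    · exact h1t.ne'
  have hcQ : ContinuousAt (fun m => Qt p f (tau m) m) m1 := by
    unfold Qt
    exact (continuousAt_const.mul ((continuousAt_const.mul hcf).sub
      ((continuousAt_const.mul hct).mul continuousAt_id))).sub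
      ((continuousAt_const.mul hcD).mul hct)
  have hck : ContinuousAt (fun m => (D1 * K - K ^ 2 * Q1 / 2) +
      (Dt p f (tau m) m * K - K ^ 2 * Qt p f (tau m) m / 2) - 2 * C * (tau m - t1)) m1 :=
    (continuousAt_const.add ((hcD.mul continuousAt_const).sub
      ((continuousAt_const.mul hcQ).div_const 2))).sub
      (continuousAt_const.mul (hct.sub continuousAt_const))
  have hev1 : ∀ᶠ m in 𝓝 m1, 1 / R < (D1 * K - K ^ 2 * Q1 / 2) +
      (Dt p f (tau m) m * K - K ^ 2 * Qt p f (tau m) m / 2) - 2 * C * (tau m - t1) := by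
    apply hck.eventually (lt_mem_nhds _)
    beta_reduce
    rw [← ht1def, ← hD1, ← hQ1, sub_self, mul_zero, sub_zero]
    linarith
  have hev2 : ∀ᶠ m in 𝓝 m1, tau m < 1 - eta := by
    apply hct.eventually (gt_mem_nhds _)
    beta_reduce
    rw [← ht1def, heta]
    linarith
  have hev3 : ∀ᶠ m in 𝓝 m1, |m| < M := by
    apply (continuous_abs.continuousAt (x := m1)).eventually (gt_mem_nhds _)
    rw [hM]
    have := abs_nonneg (f t1)
    linarith
  have hev4 : ∀ᶠ m in 𝓝 m1, |f (tau m)| < M := by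
    apply hcf.abs.eventually (gt_mem_nhds _)
    beta_reduce
    rw [← ht1def, hM]
    have := abs_nonneg m1
    linarith
  have hev5 : ∀ᶠ m in 𝓝 m1, |tau m - t1| < d0 := by
    have : ContinuousAt (fun m => |tau m - t1|) m1 := (hct.sub continuousAt_const).abs
    apply this.eventually (gt_mem_nhds _)
    beta_reduce
    rw [← ht1def, sub_self, abs_zero]
    exact hd0
  have hev6 : ∀ᶠ m in 𝓝 m1, 0 < 1 + tau m * K := by
    have : ContinuousAt (fun m => 1 + tau m * K) m1 :=
      continuousAt_const.add (hct.mul continuousAt_const)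
    exact this.eventually (lt_mem_nhds hK1)
  filter_upwards [self_mem_nhdsWithin, hev1.filter_mono nhdsWithin_le_nhds,
    hev2.filter_mono nhdsWithin_le_nhds, hev3.filter_mono nhdsWithin_le_nhds,
    hev4.filter_mono nhdsWithin_le_nhds, hev5.filter_mono nhdsWithin_le_nhds,
    hev6.filter_mono nhdsWithin_le_nhds] with m hm g1 g2 g3 g4 g5 g6
  have hm' : m1 < m := hm
  rcases le_or_gt (tau m - t1) 0 with hδ | hδ
  · have : 0 ≤ R * (m - m1) := mul_nonneg hRpos.le (by linarith)
    linarith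
  · set δ := tau m - t1 with hδdef
    have b1 := hC t1 m1 hSG1 (by rw [heta]; linarith) (by
        rw [hM]; have := abs_nonneg (f t1); linarith) (by
        rw [hM]; have := abs_nonneg m1; linarith) (tau m) (hmem m) g2.le
      (by rw [← hδdef]; exact g5.le) g6.le
    have b2 := hC (tau m) m (hCj m).1 g2.le g3.le g4.le t1 (hmem m1)
      (by rw [heta]; linarith) (by rw [abs_sub_comm, ← hδdef]; exact g5.le) hK1.le
    have e1 : |tau m - t1| = δ := by rw [← hδdef, abs_of_pos hδ]
    have e2 : |t1 - tau m| = δ := by rw [abs_sub_comm, e1]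
    have e3 : (t1 - tau m) ^ 2 = δ ^ 2 := by rw [hδdef]; ring
    rw [e1, ← hδdef, ← hD1, ← hQ1] at b1
    rw [e2, e3] at b2
    have hsum : ((D1 * K - K ^ 2 * Q1 / 2) +
        (Dt p f (tau m) m * K - K ^ 2 * Qt p f (tau m) m / 2) - 2 * C * δ) * δ ^ 2
        ≤ (m - m1) * δ := by
      have e4 : t1 - tau m = -δ := by rw [hδdef]; ring
      rw [e4] at b2
      nlinarith
    have h5 : 1 / R * δ ^ 2 ≤ (m - m1) * δ :=
      (mul_le_mul_of_nonneg_right g1.le (sq_nonneg δ)).trans hsum
    have h6 : 1 / R * δ ≤ m - m1 := by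
      have : (1 / R * δ) * δ ≤ (m - m1) * δ := by
        calc (1 / R * δ) * δ = 1 / R * δ ^ 2 := by ring
          _ ≤ _ := h5
      exact le_of_mul_le_mul_right this hδ
    calc δ = R * (1 / R * δ) := by field_simp
      _ ≤ R * (m - m1) := mul_le_mul_of_nonneg_left h6 hRpos.le

end Pool.Agent.W298.HM.Le
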