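import Pool.Agent.W707.HM.Stm

set_option autoImplicit false

namespace Pool.Agent.W298.HM.Sup

open MeasureTheory Set Pool.Agent.W707.HM
open Pool.Agent.W360.BQ (QCF)
open Pool.Agent.W360.MQ (QA RC wf)
open Pool.Agent.W488.IW (V Idx gd box tp ek)

theorem cont_gd (N : ℕ) (c : Idx → ℂ) : Continuous (fun x : V => gd (box N) c x) := by
  unfold gd tp ek
  fun_prop

theorem main (h1 : S_ZER) (h2 : S_SCL) (h3 : Pool.Agent.W360.MQ.S_QA)
    (h4 : Pool.Agent.W360.MQ.S_CONT) : S_SUP := by
  intro p f hp hcont hsup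
  have hmain : ∀ F0, F0 ≠ 0 → QCF (wh p f) F0 := by
    intro F0 hF0 N c
    set s0 : ℝ := ‖F0.1‖ + ‖F0.2‖ with hs0
    have hs0pos : 0 < s0 := by
      rcases eq_or_ne F0.1 0 with h | h
      · have h' : F0.2 ≠ 0 := fun h' => hF0 (Prod.ext h h')
        have := norm_pos_iff.2 h'
        have := norm_nonneg F0.1
        linarith
      · have := norm_pos_iff.2 h
        have := norm_nonneg F0.2
        linarith
    set t0 : ℝ := (‖F0.1‖ - ‖F0.2‖) / s0 with ht0
    have ht0m : t0 ∈ Icc (-1 : ℝ) 1 := by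
      rw [ht0]
      constructor
      · rw [le_div_iff₀ hs0pos]
        have := norm_nonneg F0.1
        linarith
      · rw [div_le_one hs0pos]
        have := norm_nonneg F0.2
        linarith
    obtain ⟨α, β, hRC, hB, heq⟩ := hsup t0 ht0m
    have hk : 0 ≤ s0 ^ p := Real.rpow_nonneg hs0pos.le p
    have hRC' := h2 α β (s0 ^ p) 1 (1 / s0) hRC hk (by norm_num) (by positivity)
    set α' : ℝ → ℝ := fun s => s0 ^ p * α (1 / s0 * s) with hα'
    set β' : ℝ → ℝ := fun s => s0 ^ p * 1 * (1 / s0) ^ 2 * β (1 / s0 * s) with hβ'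
    have hle : ∀ F : ℂ × ℂ, wf α' β' F ≤ wh p f F := by
      intro F
      unfold wf wh
      rw [hα', hβ']
      simp only
      set s : ℝ := ‖F.1‖ + ‖F.2‖ with hs
      set v : ℝ := ‖F.1‖ - ‖F.2‖ with hv
      have n1 := norm_nonneg F.1
      have n2 := norm_nonneg F.2
      have hs0' : 0 ≤ s := by positivity
      have hvs : |v| ≤ s := by
        rw [abs_le]
        constructor <;> linarith
      have hsv : ‖F.1‖ ^ 2 - ‖F.2‖ ^ 2 = s * v := by rw [hs, hv]; ring
      rw [hsv]
      have hb := hB (1 / s0 * s) (1 / s0 * v) (by positivity) (by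
        rw [abs_mul, abs_of_pos (by positivity : 0 < 1 / s0)]
        exact mul_le_mul_of_nonneg_left hvs (by positivity))
      have hdiv : 1 / s0 * v / (1 / s0 * s) = v / s := by
        rw [mul_div_mul_left _ _ (by positivity : (1 / s0) ≠ 0)]
      rw [hdiv] at hb
      have hpw : s0 ^ p * (1 / s0 * s) ^ p = s ^ p := by
        rw [← Real.mul_rpow hs0pos.le (by positivity)]
        congr 1
        field_simp
      calc s0 ^ p * α (1 / s0 * s) + s0 ^ p * 1 * (1 / s0) ^ 2 * β (1 / s0 * s) * (s * v)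
          = s0 ^ p * (α (1 / s0 * s) + β (1 / s0 * s) * (1 / s0 * s * (1 / s0 * v))) := by ring
        _ ≤ s0 ^ p * ((1 / s0 * s) ^ p * f (v / s)) := mul_le_mul_of_nonneg_left hb hk
        _ = s ^ p * f (v / s) := by rw [← mul_assoc, hpw]
    have heq0 : wf α' β' F0 = wh p f F0 := by
      unfold wf wh
      rw [hα', hβ']
      simp only
      rw [← hs0, ← ht0]
      have e1 : 1 / s0 * s0 = 1 := by field_simp
      have e2 : ‖F0.1‖ ^ 2 - ‖F0.2‖ ^ 2 = s0 * (s0 * t0) := by
        rw [ht0, mul_div_cancel₀ _ hs0pos.ne', hs0]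
        ring
      rw [e1, e2, ← heq]
      field_simp
    have hQ := h3 α' β' hRC' F0 N c
    rw [heq0] at hQ
    refine hQ.trans ?_
    have hcw : Continuous (wf α' β') := h4 α' β' hRC'
    apply setIntegral_mono
    · exact ((hcw.comp (continuous_const.add (cont_gd N c))).continuousOn).integrableOn_compact
        isCompact_Icc
    · exact ((hcont.comp (continuous_const.add (cont_gd N c))).continuousOn).integrableOn_compact
        isCompact_Icc
    · intro x
      exact hle _
  intro F0
  by_cases h0 : F0 = 0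
  · rw [h0]
    exact h1 _ hcont hmain
  · exact hmain F0 h0

end Pool.Agent.W298.HM.Sup
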